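import Pool.Agent.Lib_helper90.PB.Class

/-!
# Property `B(s)` on at most `2n` vertices (MP_9a3d30_co): the blow-up of the projective space
-/

set_option autoImplicit false

namespace Pool.Agent.PB90

open Pool.Agent.PropB65

section

variable {s t : ℕ}

/-- the vertices of the blow-up, embedded into the natural numbers -/
noncomputable def io (s t : ℕ) : ((Fin s → ZMod 2) × Fin t) ↪ ℕ :=
  (Fintype.equivFin ((Fin s → ZMod 2) × Fin t)).toEmbedding.trans Fin.valEmbedding

/-- the complement of the hyperplane with equation `y`, blown up -/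
noncomputable def Ed (t : ℕ) (y : Fin s → ZMod 2) : Finset ℕ :=
  (Finset.univ.filter fun x : (Fin s → ZMod 2) × Fin t => y ⬝ᵥ x.1 = 1).map (io s t)

/-- the family of all these sets -/
noncomputable def Fam (s t : ℕ) : Finset (Finset ℕ) :=
  (Finset.univ.erase (0 : Fin s → ZMod 2)).image (Ed t)

theorem half_count {y : Fin s → ZMod 2} (hy : y ≠ 0) :
    2 * (Finset.univ.filter fun x : Fin s → ZMod 2 => y ⬝ᵥ x = 1).card = 2 ^ s := by
  obtain ⟨i, hi⟩ := Function.ne_iff.1 hy
  have hz : ∀ a : ZMod 2, a = 0 ∨ a = 1 := by decide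
  have hi1 : y ⬝ᵥ (Pi.single i 1) = 1 := by
    rw [dotProduct_single, mul_one]
    exact (hz (y i)).resolve_left hi
  have h1 : (Finset.univ.filter fun x : Fin s → ZMod 2 => y ⬝ᵥ x = 1).card =
      (Finset.univ.filter fun x : Fin s → ZMod 2 => ¬ y ⬝ᵥ x = 1).card := by
    refine Finset.card_bij (fun x _ => x + Pi.single i 1) ?_ ?_ ?_
    · intro x hx
      rw [Finset.mem_filter] at hx ⊢
      refine ⟨Finset.mem_univ _, ?_⟩
      rw [dotProduct_add, hx.2, hi1]
      decide
    · intro a _ c _ h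
      exact add_right_cancel h
    · intro x hx
      rw [Finset.mem_filter] at hx
      refine ⟨x + Pi.single i 1, ?_, ?_⟩
      · rw [Finset.mem_filter]
        refine ⟨Finset.mem_univ _, ?_⟩
        rw [dotProduct_add, hi1, (hz _).resolve_right hx.2, zero_add]
      · have h3 : (Pi.single i 1 + Pi.single i 1 : Fin s → ZMod 2) = 0 := by
          funext j
          rw [Pi.add_apply]
          exact CharTwo.add_self_eq_zero _
        rw [add_assoc, h3, add_zero]
  have h2 := Finset.card_filter_add_card_filter_not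
    (s := (Finset.univ : Finset (Fin s → ZMod 2))) (fun x => y ⬝ᵥ x = 1)
  rw [Finset.card_univ, Fintype.card_fun, ZMod.card, Fintype.card_fin] at h2
  omega

theorem card_Ed (hs : 1 ≤ s) {y : Fin s → ZMod 2} (hy : y ≠ 0) :
    (Ed t y).card = 2 ^ (s - 1) * t := by
  unfold Ed
  rw [Finset.card_map]
  have h1 : (Finset.univ.filter fun x : (Fin s → ZMod 2) × Fin t => y ⬝ᵥ x.1 = 1) =
      (Finset.univ.filter fun x : Fin s → ZMod 2 => y ⬝ᵥ x = 1) ×ˢ (Finset.univ : Finset (Fin t)) := by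
    ext x
    simp only [Finset.mem_filter, Finset.mem_univ, true_and, Finset.mem_product, and_true]
  rw [h1, Finset.card_product, Finset.card_univ, Fintype.card_fin]
  have h2 := half_count hy
  have h3 : 2 ^ s = 2 * 2 ^ (s - 1) := by
    rw [← pow_succ']
    congr 1
    omega
  rw [h3] at h2
  rw [Nat.eq_of_mul_eq_mul_left (by norm_num) h2]

theorem Ed_inj (ht : 0 < t) : Function.Injective (Ed (s := s) t) := by
  intro y y' h
  have hz : ∀ a c : ZMod 2, (a = 1 ↔ c = 1) → a = c := by decide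
  funext i
  apply hz
  have h1 : ∀ w : Fin s → ZMod 2, io s t (Pi.single i 1, ⟨0, ht⟩) ∈ Ed t w ↔ w i = 1 := by
    intro w
    unfold Ed
    rw [Finset.mem_map', Finset.mem_filter, dotProduct_single, mul_one]
    simp only [Finset.mem_univ, true_and]
  rw [← h1 y, ← h1 y', h]

theorem Fam_card (ht : 0 < t) : (Fam s t).card = 2 ^ s - 1 := by
  unfold Fam
  rw [Finset.card_image_of_injective _ (Ed_inj ht), Finset.card_erase_of_mem (Finset.mem_univ _),
    Finset.card_univ, Fintype.card_fun, ZMod.card, Fintype.card_fin]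

theorem Fam_sup : ((Fam s t).sup id).card ≤ 2 ^ s * t := by
  have h1 : (Fam s t).sup id ⊆ (Finset.univ : Finset ((Fin s → ZMod 2) × Fin t)).map (io s t) := by
    refine Finset.sup_le (fun A hA => ?_)
    obtain ⟨y, -, rfl⟩ := Finset.mem_image.1 hA
    exact Finset.map_subset_map.2 (Finset.filter_subset _ _)
  have h2 := Finset.card_le_card h1
  rwa [Finset.card_map, Finset.card_univ, Fintype.card_prod, Fintype.card_fun, ZMod.card,
    Fintype.card_fin, Fintype.card_fin] at h2

/-- Linear functionals are given by vectors. -/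
theorem dual_vec (f : (Fin s → ZMod 2) →ₗ[ZMod 2] ZMod 2) :
    ∃ y : Fin s → ZMod 2, ∀ x, y ⬝ᵥ x = f x := by
  refine ⟨fun i => f (Pi.single i 1), fun x => ?_⟩
  have h2 : x = ∑ i, x i • (Pi.single i 1 : Fin s → ZMod 2) := by
    conv_lhs => rw [pi_eq_sum_univ x]
    refine Finset.sum_congr rfl (fun i _ => ?_)
    congr 1
    funext j
    rw [Pi.single_apply]
    by_cases h : i = j
    · rw [if_pos h, if_pos h.symm]
    · rw [if_neg h, if_neg (Ne.symm h)]
  conv_rhs => rw [h2]
  rw [map_sum]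
  unfold dotProduct
  refine Finset.sum_congr rfl (fun i _ => ?_)
  rw [map_smul, smul_eq_mul, mul_comm]

theorem mem_Ed {y : Fin s → ZMod 2} {v : ℕ} :
    v ∈ Ed t y ↔ ∃ x : Fin s → ZMod 2, ∃ i : Fin t, y ⬝ᵥ x = 1 ∧ io s t (x, i) = v := by
  unfold Ed
  rw [Finset.mem_map]
  constructor
  · rintro ⟨⟨x, i⟩, hx, rfl⟩
    rw [Finset.mem_filter] at hx
    exact ⟨x, i, hx.2, rfl⟩
  · rintro ⟨x, i, hx, rfl⟩
    refine ⟨(x, i), ?_, rfl⟩
    rw [Finset.mem_filter]
    exact ⟨Finset.mem_univ _, hx⟩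

theorem Ed_mem_Fam {y : Fin s → ZMod 2} (hy : y ≠ 0) : Ed t y ∈ Fam s t :=
  Finset.mem_image_of_mem _ (Finset.mem_erase.2 ⟨hy, Finset.mem_univ _⟩)

/-- Every set of vertices avoids an edge or meets an edge in at least `s` vertices. -/
theorem Fam_not (hs : 1 ≤ s) : ¬ HasB s (Fam s t) := by
  rintro ⟨S, -, hB⟩
  -- the points below `S`
  let P : Set (Fin s → ZMod 2) := {x | ∃ i : Fin t, io s t (x, i) ∈ S}
  by_cases hP : Submodule.span (ZMod 2) P = ⊤
  · -- a basis inside `P`
    let bs := Module.Basis.ofSpan (le_of_eq hP.symm)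
    have hbs : Set.range bs ⊆ P := Module.Basis.ofSpan_subset (le_of_eq hP.symm)
    obtain ⟨y, hy⟩ := dual_vec (bs.constr ℕ (fun _ => (1 : ZMod 2)))
    have hf : ∀ j, y ⬝ᵥ bs j = 1 := fun j => (hy _).trans (bs.constr_basis ℕ _ j)
    have hfin := Module.Finite.finite_basis bs
    have hcard := Module.finrank_eq_nat_card_basis bs
    rw [Module.finrank_fin_fun] at hcard
    have hy0 : y ≠ 0 := by
      intro h
      have h1 : 0 < Nat.card _ := lt_of_lt_of_le hs (le_of_eq hcard)
      obtain ⟨⟨j⟩, -⟩ := Nat.card_pos_iff.1 h1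
      have h2 := hf j
      rw [h, zero_dotProduct] at h2
      exact zero_ne_one h2
    have hex : ∀ j, ∃ i : Fin t, io s t (bs j, i) ∈ S := fun j => hbs ⟨j, rfl⟩
    choose g hg using hex
    have h3 : ∀ j, io s t (bs j, g j) ∈ Ed t y ∩ S := by
      intro j
      rw [Finset.mem_inter]
      exact ⟨mem_Ed.2 ⟨bs j, g j, hf j, rfl⟩, hg j⟩
    have h4 : Nat.card _ ≤ Nat.card {x // x ∈ Ed t y ∩ S} :=
      Nat.card_le_card_of_injective (fun j => (⟨io s t (bs j, g j), h3 j⟩ : {x // x ∈ Ed t y ∩ S}))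
        (by
          intro j k h
          have h5 := (io s t).injective (congrArg Subtype.val h)
          exact bs.injective (congrArg Prod.fst h5))
    rw [← hcard, Nat.card_eq_fintype_card, Fintype.card_coe] at h4
    have h5 := (hB _ (Ed_mem_Fam hy0)).2
    omega
  · obtain ⟨f, hf0, hf⟩ := Submodule.exists_le_ker_of_lt_top _ (lt_top_iff_ne_top.2 hP)
    obtain ⟨y, hy⟩ := dual_vec f
    have hy0 : y ≠ 0 := by
      intro h
      apply hf0
      ext x
      have h2 := hy (Pi.single x 1)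
      rw [h, zero_dotProduct] at h2
      simpa using h2.symm
    have h5 := (hB _ (Ed_mem_Fam (t := t) hy0)).1
    rw [Finset.card_pos] at h5
    obtain ⟨v, hv⟩ := h5
    rw [Finset.mem_inter] at hv
    obtain ⟨x, i, hx, rfl⟩ := mem_Ed.1 hv.1
    have h6 : x ∈ LinearMap.ker f := hf (Submodule.subset_span ⟨i, hv.2⟩)
    rw [LinearMap.mem_ker, ← hy, hx] at h6
    exact one_ne_zero h6

theorem exist {n : ℕ} (hs : 1 ≤ s) (hn : 0 < n) (hd : 2 ^ (s - 1) ∣ n) :
    ∃ F : Finset (Finset ℕ), (∀ A ∈ F, A.card = n) ∧ (F.sup id).card ≤ 2 * n ∧ ¬ HasB s F ∧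
      F.card = 2 ^ s - 1 := by
  obtain ⟨t, rfl⟩ := hd
  have ht : 0 < t := Nat.pos_of_mul_pos_left hn
  refine ⟨Fam s t, ?_, ?_, Fam_not hs, Fam_card ht⟩
  · intro A hA
    obtain ⟨y, hy, rfl⟩ := Finset.mem_image.1 hA
    exact card_Ed hs (Finset.mem_erase.1 hy).1
  · refine Fam_sup.trans (le_of_eq ?_)
    rw [← mul_assoc, ← pow_succ']
    congr 2
    omega

end

end Pool.Agent.PB90
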