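import Pool.Agent.Lib_helper90.PB.Struct

/-!
# Property `B(s)` on at most `2n` vertices (MP_9a3d30_co): classification of the equality case
-/

set_option autoImplicit false

namespace Pool.Agent.PB90

open Pool.Agent.PropB65

section

variable {F : Finset (Finset ℕ)} {V : Finset ℕ} {n s : ℕ}

/-- the incidence vector of a vertex -/
def xv (F : Finset (Finset ℕ)) (v : ℕ) : {A // A ∈ F} → ZMod 2 := fun A => if v ∈ A.1 then 1 else 0

theorem xv_eq_iff (u v : ℕ) : xv F u = xv F v ↔ ∀ A ∈ F, ep A u = ep A v := by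
  constructor
  · intro h A hA
    have h1 := congrFun h ⟨A, hA⟩
    unfold xv at h1
    unfold ep
    by_cases h2 : u ∈ A <;> by_cases h3 : v ∈ A <;> simp [h2, h3] at h1 ⊢
  · intro h
    funext A
    have h1 := h A.1 A.2
    unfold ep at h1
    unfold xv
    by_cases h2 : u ∈ A.1 <;> by_cases h3 : v ∈ A.1 <;> simp [h2, h3] at h1 ⊢

/-- the space of incidence vectors -/
def W (hs : 2 ≤ s) (hsn : s ≤ n) (hF : ∀ A ∈ F, A.card = n)
    (hFV : ∀ A ∈ F, A ⊆ V) (hV : V.card = 2 * n) (hB : ¬ HasB s F)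
    (hm : F.card = 2 ^ s - 1) : Submodule (ZMod 2) ({A // A ∈ F} → ZMod 2) where
  carrier := {x | ∃ v ∈ V, xv F v = x}
  zero_mem' := by
    obtain ⟨z, hz, h⟩ := exists_dummy hs hsn hF hFV hV hB hm
    refine ⟨z, hz, ?_⟩
    funext A
    unfold xv
    rw [if_neg (h A.1 A.2)]
    rfl
  add_mem' := by
    rintro _ _ ⟨a, ha, rfl⟩ ⟨c, hc, rfl⟩
    obtain ⟨z, hz, h⟩ := exists_dummy hs hsn hF hFV hV hB hm
    obtain ⟨v, hv, h1⟩ := triple hs hsn hF hFV hV hB hm a ha c hc z hz
    refine ⟨v, hv, ?_⟩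
    funext A
    have h2 := h1 A.1 A.2
    have h3 := h A.1 A.2
    rw [Pi.add_apply]
    unfold xv
    unfold ep at h2
    by_cases h4 : v ∈ A.1 <;> by_cases h5 : a ∈ A.1 <;> by_cases h6 : c ∈ A.1 <;>
      simp [h3, h4, h5, h6] at h2 ⊢ <;> rfl
  smul_mem' := by
    rintro c x ⟨v, hv, rfl⟩
    have hc : c = 0 ∨ c = 1 := by
      revert c
      decide
    rcases hc with h | h
    · rw [h, zero_smul]
      obtain ⟨z, hz, h'⟩ := exists_dummy hs hsn hF hFV hV hB hm
      refine ⟨z, hz, ?_⟩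
      funext A
      unfold xv
      rw [if_neg (h' A.1 A.2)]
      rfl
    · rw [h, one_smul]
      exact ⟨v, hv, rfl⟩

theorem fiber_card (hs : 2 ≤ s) (hsn : s ≤ n) (hF : ∀ A ∈ F, A.card = n)
    (hFV : ∀ A ∈ F, A ⊆ V) (hV : V.card = 2 * n) (hB : ¬ HasB s F)
    (hm : F.card = 2 ^ s - 1) (u : ℕ) (hu : u ∈ V) :
    2 ^ s * (V.filter fun v => xv F v = xv F u).card = 2 * n := by
  obtain ⟨hmZ, hp1⟩ := pow_facts hs hm
  obtain ⟨ht, -⟩ := tight hs hsn hF hFV hV hB hm
  have h1 : ∑ v ∈ V, (G F u v + 1) = 2 * n := by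
    rw [Finset.sum_add_distrib, sum_G hF hFV hV, Finset.sum_const, hV]
    simp
  have h2 : ∀ v ∈ V, G F u v + 1 = if xv F v = xv F u then 2 ^ s else 0 := by
    intro v hv
    rcases ht u hu v hv with h | h
    · rw [h, if_neg]
      · simp
      · intro h3
        rw [xv_eq_iff] at h3
        have h4 : G F u v = F.card := by
          rw [← G_self F u]
          unfold G
          refine Finset.sum_congr rfl (fun A hA => ?_)
          rw [h3 A hA]
        rw [h4, hmZ] at h
        have : (0 : ℤ) < 2 ^ s := by positivity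
        linarith
    · rw [h, if_pos]
      · ring
      · rw [xv_eq_iff]
        intro A hA
        exact (ep_eq_of hmZ h A hA).symm
  rw [Finset.sum_congr rfl h2, ← Finset.sum_filter, Finset.sum_const, nsmul_eq_mul] at h1
  have h3 : ((2 ^ s * (V.filter fun v => xv F v = xv F u).card : ℕ) : ℤ) = ((2 * n : ℕ) : ℤ) := by
    push_cast
    rw [← h1]
    ring
  exact_mod_cast h3

theorem card_W (hs : 2 ≤ s) (hsn : s ≤ n) (hF : ∀ A ∈ F, A.card = n)
    (hFV : ∀ A ∈ F, A ⊆ V) (hV : V.card = 2 * n) (hB : ¬ HasB s F)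
    (hm : F.card = 2 ^ s - 1) : (V.image (xv F)).card = 2 ^ s := by
  have h1 : V.card = ∑ x ∈ V.image (xv F), (V.filter fun v => xv F v = x).card :=
    Finset.card_eq_sum_card_fiberwise (fun v hv => Finset.mem_image_of_mem _ hv)
  have h2 : ∀ x ∈ V.image (xv F), 2 ^ s * (V.filter fun v => xv F v = x).card = 2 * n := by
    intro x hx
    obtain ⟨u, hu, rfl⟩ := Finset.mem_image.1 hx
    exact fiber_card hs hsn hF hFV hV hB hm u hu
  have h3 : 2 ^ s * V.card = (V.image (xv F)).card * (2 * n) := by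
    rw [h1, Finset.mul_sum, Finset.sum_congr rfl h2, Finset.sum_const, smul_eq_mul]
  rw [hV] at h3
  exact (Nat.eq_of_mul_eq_mul_right (by omega) h3).symm

theorem classify (hs : 2 ≤ s) (hsn : s ≤ n) (F : Finset (Finset ℕ)) (hF : ∀ A ∈ F, A.card = n)
    (hVc : (F.sup id).card ≤ 2 * n) (hB : ¬ HasB s F) (hm : F.card = 2 ^ s - 1) :
    ∃ φ : ℕ → (Fin s → ZMod 2), (∀ v ∈ F.sup id, φ v ≠ 0) ∧
      (∀ x, x ≠ 0 → ((F.sup id).filter fun v => φ v = x).card * 2 ^ (s - 1) = n) ∧
      ∀ A, A ∈ F ↔ ∃ y : Fin s → ZMod 2, y ≠ 0 ∧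
        A = (F.sup id).filter fun v => y ⬝ᵥ φ v = 1 := by
  obtain ⟨V, hFV', hV⟩ := Infinite.exists_superset_card_eq (F.sup id) (2 * n) hVc
  have hFV : ∀ A ∈ F, A ⊆ V := fun A hA => (Finset.le_sup (f := id) hA).trans hFV'
  have hAsup : ∀ A ∈ F, A ⊆ F.sup id := fun A hA => Finset.le_sup (f := id) hA
  have hsup : ∀ v, v ∈ F.sup id ↔ ∃ A ∈ F, v ∈ A := by
    intro v
    rw [Finset.mem_sup]
    rfl
  have hWV : ∀ v ∈ V, xv F v ∈ W hs hsn hF hFV hV hB hm := fun v hv => ⟨v, hv, rfl⟩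
  -- the dimension
  have hset : ((W hs hsn hF hFV hV hB hm : Submodule (ZMod 2) ({A // A ∈ F} → ZMod 2)) :
      Set ({A // A ∈ F} → ZMod 2)) = ↑(V.image (xv F)) := by
    ext x
    rw [Finset.mem_coe, Finset.mem_image]
    rfl
  have hcW : Nat.card (W hs hsn hF hFV hV hB hm) = 2 ^ s := by
    have h1 : Nat.card (W hs hsn hF hFV hV hB hm) =
        ((W hs hsn hF hFV hV hB hm : Submodule (ZMod 2) ({A // A ∈ F} → ZMod 2)) :
          Set ({A // A ∈ F} → ZMod 2)).ncard := Nat.card_coe_set_eq _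
    rw [h1, hset, Set.ncard_coe_finset, card_W hs hsn hF hFV hV hB hm]
  have hfr : Module.finrank (ZMod 2) (W hs hsn hF hFV hV hB hm) =
      Module.finrank (ZMod 2) (Fin s → ZMod 2) := by
    have h1 := Module.natCard_eq_pow_finrank (K := ZMod 2) (V := W hs hsn hF hFV hV hB hm)
    rw [hcW, Nat.card_zmod] at h1
    rw [Module.finrank_fin_fun]
    exact (Nat.pow_right_injective le_rfl h1).symm
  let e : W hs hsn hF hFV hV hB hm ≃ₗ[ZMod 2] (Fin s → ZMod 2) := LinearEquiv.ofFinrankEq _ _ hfr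
  let φ : ℕ → (Fin s → ZMod 2) := fun v => if h : v ∈ V then e ⟨xv F v, hWV v h⟩ else 0
  have hφ : ∀ v, ∀ h : v ∈ V, φ v = e ⟨xv F v, hWV v h⟩ := fun v h => dif_pos h
  let Y : {A // A ∈ F} → (Fin s → ZMod 2) := fun A i => (e.symm (Pi.single i 1)).1 A
  have hYe : ∀ A : {A // A ∈ F}, ∀ x : W hs hsn hF hFV hV hB hm, Y A ⬝ᵥ e x = x.1 A := by
    intro A x
    have h1 : x = ∑ i, (e x) i • e.symm (Pi.single i 1) := by
      have h2 : e x = ∑ i, (e x) i • (Pi.single i 1 : Fin s → ZMod 2) := by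
        conv_lhs => rw [pi_eq_sum_univ (e x)]
        refine Finset.sum_congr rfl (fun i _ => ?_)
        congr 1
        funext j
        rw [Pi.single_apply]
        by_cases h : i = j
        · rw [if_pos h, if_pos h.symm]
        · rw [if_neg h, if_neg (Ne.symm h)]
      conv_lhs => rw [← e.symm_apply_apply x, h2]
      rw [map_sum]
      exact Finset.sum_congr rfl (fun i _ => by rw [map_smul])
    have h3 : x.1 A = ∑ i, (e x) i • (e.symm (Pi.single i 1)).1 A := by
      conv_lhs => rw [h1]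
      rw [Submodule.coe_sum, Finset.sum_apply]
      rfl
    rw [h3]
    unfold dotProduct
    exact Finset.sum_congr rfl (fun i _ => mul_comm _ _)
  have hYφ : ∀ A : {A // A ∈ F}, ∀ v ∈ V, Y A ⬝ᵥ φ v = if v ∈ A.1 then 1 else 0 := by
    intro A v hv
    rw [hφ v hv, hYe]
    rfl
  have hAY : ∀ A : {A // A ∈ F}, A.1 = (F.sup id).filter fun v => Y A ⬝ᵥ φ v = 1 := by
    intro A
    ext v
    rw [Finset.mem_filter]
    constructor
    · intro h
      refine ⟨hAsup A.1 A.2 h, ?_⟩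
      rw [hYφ A v (hFV A.1 A.2 h), if_pos h]
    · rintro ⟨h1, h2⟩
      rw [hYφ A v (hFV' h1)] at h2
      by_contra h3
      rw [if_neg h3] at h2
      exact zero_ne_one h2
  have hY0 : ∀ A : {A // A ∈ F}, Y A ≠ 0 := by
    intro A h
    have h1 := hAY A
    rw [h] at h1
    simp only [zero_dotProduct, zero_ne_one, Finset.filter_false] at h1
    have h2 := hF A.1 A.2
    rw [h1, Finset.card_empty] at h2
    omega
  have hYinj : Function.Injective Y := by
    intro A B h
    apply Subtype.ext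
    rw [hAY A, hAY B, h]
  have hYsurj : ∀ y : Fin s → ZMod 2, y ≠ 0 → ∃ A, Y A = y := by
    intro y hy
    have h1 : (Finset.univ.image Y) ⊆ Finset.univ.erase (0 : Fin s → ZMod 2) := by
      intro y hy
      obtain ⟨A, -, rfl⟩ := Finset.mem_image.1 hy
      rw [Finset.mem_erase]
      exact ⟨hY0 A, Finset.mem_univ _⟩
    have h2 : (Finset.univ.erase (0 : Fin s → ZMod 2)).card ≤ (Finset.univ.image Y).card := by
      rw [Finset.card_image_of_injective _ hYinj, Finset.card_erase_of_mem (Finset.mem_univ _),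
        Finset.card_univ, Finset.card_univ, Fintype.card_coe, hm, Fintype.card_fun, ZMod.card,
        Fintype.card_fin]
    have h3 := Finset.eq_of_subset_of_card_le h1 h2
    have h4 : y ∈ Finset.univ.image Y := by
      rw [h3, Finset.mem_erase]
      exact ⟨hy, Finset.mem_univ _⟩
    obtain ⟨A, -, hA⟩ := Finset.mem_image.1 h4
    exact ⟨A, hA⟩
  have hφ0 : ∀ v ∈ V, φ v = 0 ↔ v ∉ F.sup id := by
    intro v hv
    rw [hφ v hv, LinearEquiv.map_eq_zero_iff, hsup]
    constructor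
    · rintro h ⟨A, hA, hvA⟩
      have h1 := congrFun (congrArg Subtype.val h) ⟨A, hA⟩
      change (if v ∈ A then (1 : ZMod 2) else 0) = 0 at h1
      rw [if_pos hvA] at h1
      exact one_ne_zero h1
    · intro h
      apply Subtype.ext
      funext A
      change (if v ∈ A.1 then (1 : ZMod 2) else 0) = 0
      rw [if_neg (fun h1 => h ⟨A.1, A.2, h1⟩)]
  refine ⟨φ, ?_, ?_, ?_⟩
  · intro v hv h
    exact (hφ0 v (hFV' hv)).1 h hv
  · intro x hx
    obtain ⟨u, hu, hux⟩ : ∃ u ∈ V, φ u = x := by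
      obtain ⟨v, hv, hvx⟩ := (e.symm x).2
      refine ⟨v, hv, ?_⟩
      rw [hφ v hv]
      have : (⟨xv F v, hWV v hv⟩ : W hs hsn hF hFV hV hB hm) = e.symm x := Subtype.ext hvx
      rw [this, LinearEquiv.apply_symm_apply]
    have h1 : (F.sup id).filter (fun v => φ v = x) = V.filter fun v => xv F v = xv F u := by
      ext v
      rw [Finset.mem_filter, Finset.mem_filter]
      constructor
      · rintro ⟨h2, h3⟩
        refine ⟨hFV' h2, ?_⟩
        rw [← hux, hφ v (hFV' h2), hφ u hu] at h3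
        exact congrArg Subtype.val (e.injective h3)
      · rintro ⟨h2, h3⟩
        have h4 : φ v = x := by
          rw [← hux, hφ v h2, hφ u hu]
          congr 1
          exact Subtype.ext h3
        refine ⟨?_, h4⟩
        by_contra h5
        exact hx (h4.symm.trans ((hφ0 v h2).2 h5))
    have h6 := fiber_card hs hsn hF hFV hV hB hm u hu
    rw [h1]
    have h7 : 2 ^ s = 2 * 2 ^ (s - 1) := by
      rw [← pow_succ']
      congr 1
      omega
    rw [h7] at h6
    nlinarith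
  · intro A
    constructor
    · intro hA
      exact ⟨Y ⟨A, hA⟩, hY0 _, hAY ⟨A, hA⟩⟩
    · rintro ⟨y, hy, rfl⟩
      obtain ⟨A, hA⟩ := hYsurj y hy
      rw [← hA, ← hAY A]
      exact A.2

end

end Pool.Agent.PB90
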