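import Pool.Agent.Lib_helper65.PropB.Defs

/-!
# Property `B(s)` on at most `2n` vertices (MP_9a3d30_co): the families considered
-/

namespace Pool.Agent.PB90

/-- A family of `n`-sets on at most `2n` vertices (the vertex set is the union of the edges)
without property `B(s)`. -/
def IsFam (n s : ℕ) (F : Finset (Finset ℕ)) : Prop :=
  (∀ A ∈ F, A.card = n) ∧ (F.sup id).card ≤ 2 * n ∧ ¬ PropB65.HasB s F

end Pool.Agent.PB90
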