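import Pool.Agent.Lib_helper65.PropB.Defs

/-!
# Property `B(s)` on at most `2n` vertices (MP_9a3d30_co): lower bound and equality
-/

set_option autoImplicit false

namespace Pool.Agent.PB90

open Pool.Agent.PropB65

/-- the number of edges that contain `T` or are disjoint from `T` -/
def b (F : Finset (Finset ℕ)) (T : Finset ℕ) : ℕ :=
  (F.filter fun A => T ⊆ A ∨ Disjoint T A).card

section

variable {F : Finset (Finset ℕ)} {V : Finset ℕ} {n s : ℕ}

theorem bad (hFV : ∀ A ∈ F, A ⊆ V) (hB : ¬ HasB s F) (S : Finset ℕ) (hS : S.card = s) :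
    1 ≤ b F S := by
  unfold HasB at hB
  push Not at hB
  obtain ⟨A, hA, h⟩ := hB (S ∩ F.sup id) Finset.inter_subset_right
  have hAF : A ⊆ F.sup id := Finset.le_sup (f := id) hA
  have e1 : A ∩ (S ∩ F.sup id) = A ∩ S := by
    ext x
    simp only [Finset.mem_inter]
    constructor
    · rintro ⟨a, c, -⟩
      exact ⟨a, c⟩
    · rintro ⟨a, c⟩
      exact ⟨a, c, hAF a⟩
  rw [e1] at h
  have : A ∈ F.filter fun A => S ⊆ A ∨ Disjoint S A := by
    rw [Finset.mem_filter]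
    refine ⟨hA, ?_⟩
    rcases Nat.eq_zero_or_pos (A ∩ S).card with h0 | h0
    · right
      rw [Finset.card_eq_zero] at h0
      rw [disjoint_comm, Finset.disjoint_iff_inter_eq_empty, h0]
    · left
      have h1 : s ≤ (A ∩ S).card := h h0
      have h2 : A ∩ S = S := Finset.eq_of_subset_of_card_le Finset.inter_subset_right (by omega)
      rw [← h2]
      exact Finset.inter_subset_left
  exact Finset.card_pos.2 ⟨A, this⟩

theorem avg (hF : ∀ A ∈ F, A.card = n) (hFV : ∀ A ∈ F, A ⊆ V) (hV : V.card = 2 * n)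
    (T : Finset ℕ) (hTV : T ⊆ V) (hT : T.Nonempty) (hTn : T.card ≤ n) :
    ∑ w ∈ V \ T, b F (insert w T) = b F T * (n - T.card) := by
  unfold b
  simp only [Finset.card_filter]
  rw [Finset.sum_comm, Finset.sum_mul]
  refine Finset.sum_congr rfl (fun A hA => ?_)
  rw [← Finset.card_filter]
  by_cases h1 : T ⊆ A
  · rw [if_pos (Or.inl h1), one_mul]
    have e1 : (V \ T).filter (fun w => insert w T ⊆ A ∨ Disjoint (insert w T) A) = A \ T := by
      ext w
      simp only [Finset.mem_filter, Finset.mem_sdiff, Finset.insert_subset_iff,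
        Finset.disjoint_insert_left]
      constructor
      · rintro ⟨⟨_, b⟩, c | c⟩
        · exact ⟨c.1, b⟩
        · exfalso
          obtain ⟨x, hx⟩ := hT
          exact Finset.disjoint_left.1 c.2 hx (h1 hx)
      · rintro ⟨a, b⟩
        exact ⟨⟨hFV A hA a, b⟩, Or.inl ⟨a, h1⟩⟩
    rw [e1, Finset.card_sdiff_of_subset h1, hF A hA]
  · by_cases h2 : Disjoint T A
    · rw [if_pos (Or.inr h2), one_mul]
      have e1 : (V \ T).filter (fun w => insert w T ⊆ A ∨ Disjoint (insert w T) A) =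
          (V \ A) \ T := by
        ext w
        simp only [Finset.mem_filter, Finset.mem_sdiff, Finset.insert_subset_iff,
          Finset.disjoint_insert_left]
        constructor
        · rintro ⟨⟨a, b⟩, c | c⟩
          · exact absurd c.2 h1
          · exact ⟨⟨a, c.1⟩, b⟩
        · rintro ⟨⟨a, b⟩, c⟩
          exact ⟨⟨a, c⟩, Or.inr ⟨b, h2⟩⟩
      rw [e1, Finset.card_sdiff_of_subset, Finset.card_sdiff_of_subset (hFV A hA), hF A hA, hV]
      · omega
      · intro x hx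
        rw [Finset.mem_sdiff]
        exact ⟨hTV hx, fun h => Finset.disjoint_left.1 h2 hx h⟩
    · rw [if_neg (by tauto), zero_mul, Finset.card_eq_zero]
      rw [Finset.filter_eq_empty_iff]
      intro w _
      rw [Finset.insert_subset_iff, Finset.disjoint_insert_left]
      tauto

theorem half (hsn : s ≤ n) (hF : ∀ A ∈ F, A.card = n) (hFV : ∀ A ∈ F, A ⊆ V)
    (hV : V.card = 2 * n) (hB : ¬ HasB s F) : ∀ k j : ℕ, j + k = s → 1 ≤ j →
      ∀ T : Finset ℕ, T ⊆ V → T.card = j → 2 ^ (k + 1) - 1 ≤ b F T := by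
  intro k
  induction k with
  | zero =>
    intro j hj _ T _ hT
    simpa using bad hFV hB T (by omega)
  | succ k ih =>
    intro j hj h1 T hTV hT
    have hne : T.Nonempty := Finset.card_pos.1 (by omega)
    have h2 := avg hF hFV hV T hTV hne (by omega)
    have h3 : (V \ T).card * (2 ^ (k + 1) - 1) ≤ ∑ w ∈ V \ T, b F (insert w T) := by
      rw [← smul_eq_mul]
      refine Finset.card_nsmul_le_sum _ _ _ (fun w hw => ?_)
      rw [Finset.mem_sdiff] at hw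
      refine ih (j + 1) (by omega) (by omega) _ (Finset.insert_subset hw.1 hTV) ?_
      rw [Finset.card_insert_of_notMem hw.2, hT]
    rw [h2, Finset.card_sdiff_of_subset hTV, hV, hT] at h3
    obtain ⟨M, hM⟩ : ∃ M, 2 ^ (k + 1) = M + 1 :=
      ⟨2 ^ (k + 1) - 1, by have := Nat.one_le_two_pow (n := k + 1); omega⟩
    have hM1 : 1 ≤ M := by
      have : 2 ^ 1 ≤ 2 ^ (k + 1) := Nat.pow_le_pow_right (by norm_num) (by omega)
      omega
    have e1 : 2 ^ (k + 1 + 1) - 1 = 2 * M + 1 := by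
      rw [pow_succ, hM]
      omega
    rw [e1]
    by_contra hlt
    have hb : b F T ≤ 2 * M := by omega
    rw [hM, Nat.add_sub_cancel] at h3
    have h4 : b F T * (n - j) ≤ 2 * M * (n - j) := Nat.mul_le_mul_right _ hb
    have h5 : (2 * n - j) * M ≤ 2 * M * (n - j) := h3.trans h4
    have h6 : (2 * n - j) = 2 * (n - j) + j := by omega
    rw [h6] at h5
    nlinarith [Nat.mul_pos (show 0 < j by omega) (show 0 < M by omega)]

/-- sign of a vertex with respect to an edge -/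
def ep (A : Finset ℕ) (v : ℕ) : ℤ := if v ∈ A then 1 else -1

/-- Gram matrix -/
def G (F : Finset (Finset ℕ)) (u v : ℕ) : ℤ := ∑ A ∈ F, ep A u * ep A v

theorem ep_sq (A : Finset ℕ) (v : ℕ) : ep A v * ep A v = 1 := by
  unfold ep
  split_ifs <;> norm_num

theorem G_eq (F : Finset (Finset ℕ)) (u v : ℕ) :
    G F u v = 2 * (b F {u, v} : ℤ) - F.card := by
  unfold G b
  rw [Finset.card_filter]
  push_cast
  rw [Finset.mul_sum, Finset.card_eq_sum_ones, Nat.cast_sum, ← Finset.sum_sub_distrib]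
  refine Finset.sum_congr rfl (fun A _ => ?_)
  unfold ep
  simp only [Finset.insert_subset_iff, Finset.singleton_subset_iff, Finset.disjoint_insert_left,
    Finset.disjoint_singleton_left]
  by_cases h1 : u ∈ A <;> by_cases h2 : v ∈ A <;> simp [h1, h2]

theorem G_self (F : Finset (Finset ℕ)) (u : ℕ) : G F u u = F.card := by
  unfold G
  simp [ep_sq]

theorem G_le (F : Finset (Finset ℕ)) (u v : ℕ) : G F u v ≤ F.card := by
  rw [G_eq]
  have : b F {u, v} ≤ F.card := Finset.card_filter_le _ _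
  omega

theorem sum_ep (hV : V.card = 2 * n) {A : Finset ℕ} (hA : A.card = n) (hAV : A ⊆ V) :
    ∑ v ∈ V, ep A v = 0 := by
  unfold ep
  rw [Finset.sum_ite, Finset.sum_const, Finset.sum_const]
  have e1 : V.filter (fun v => v ∈ A) = A := by
    ext x
    simp only [Finset.mem_filter]
    exact ⟨fun h => h.2, fun h => ⟨hAV h, h⟩⟩
  have e2 : (V.filter (fun v => v ∉ A)).card = n := by
    have : V.filter (fun v => v ∉ A) = V \ A := by
      ext x
      simp only [Finset.mem_filter, Finset.mem_sdiff]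
    rw [this, Finset.card_sdiff_of_subset hAV, hV, hA]
    omega
  rw [e1, e2, hA]
  simp

theorem sum_G (hF : ∀ A ∈ F, A.card = n) (hFV : ∀ A ∈ F, A ⊆ V) (hV : V.card = 2 * n) (u : ℕ) :
    ∑ v ∈ V, G F u v = 0 := by
  unfold G
  rw [Finset.sum_comm]
  refine Finset.sum_eq_zero (fun A hA => ?_)
  rw [← Finset.mul_sum, sum_ep hV (hF A hA) (hFV A hA), mul_zero]

theorem sum_G_sq_eq (F : Finset (Finset ℕ)) (V : Finset ℕ) : ∑ u ∈ V, ∑ v ∈ V, G F u v ^ 2 =
    ∑ A ∈ F, ∑ B ∈ F, (∑ v ∈ V, ep A v * ep B v) ^ 2 := by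
  have h1 : ∀ u v, G F u v ^ 2 = ∑ A ∈ F, ∑ B ∈ F, (ep A u * ep B u) * (ep A v * ep B v) := by
    intro u v
    unfold G
    rw [sq, Finset.sum_mul_sum]
    exact Finset.sum_congr rfl (fun A _ => Finset.sum_congr rfl (fun B _ => by ring))
  have h2 : ∀ A B : Finset ℕ, (∑ v ∈ V, ep A v * ep B v) ^ 2 =
      ∑ u ∈ V, ∑ v ∈ V, (ep A u * ep B u) * (ep A v * ep B v) := by
    intro A B
    rw [sq, Finset.sum_mul_sum]
  simp only [h1, h2]
  have h3 : ∀ u ∈ V, ∑ v ∈ V, ∑ A ∈ F, ∑ B ∈ F, (ep A u * ep B u) * (ep A v * ep B v) =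
      ∑ A ∈ F, ∑ B ∈ F, ∑ v ∈ V, (ep A u * ep B u) * (ep A v * ep B v) := by
    intro u _
    rw [Finset.sum_comm]
    exact Finset.sum_congr rfl (fun A _ => Finset.sum_comm)
  rw [Finset.sum_congr rfl h3, Finset.sum_comm]
  exact Finset.sum_congr rfl (fun A _ => Finset.sum_comm)

theorem ep_self_sum (hV : V.card = 2 * n) (A : Finset ℕ) :
    ∑ v ∈ V, ep A v * ep A v = 2 * (n : ℤ) := by
  simp only [ep_sq]
  rw [Finset.sum_const, hV]
  simp

theorem pow_facts (hs : 2 ≤ s) (hm : F.card = 2 ^ s - 1) :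
    (F.card : ℤ) = 2 ^ s - 1 ∧ (2 : ℤ) ^ s = 2 * 2 ^ (s - 1) := by
  have hp : 1 ≤ 2 ^ s := Nat.one_le_two_pow
  refine ⟨?_, ?_⟩
  · rw [hm, Nat.cast_sub hp]
    push_cast
    ring
  · rw [← pow_succ']
    congr 1
    omega

theorem G_ge (hs : 2 ≤ s) (hsn : s ≤ n) (hF : ∀ A ∈ F, A.card = n)
    (hFV : ∀ A ∈ F, A ⊆ V) (hV : V.card = 2 * n) (hB : ¬ HasB s F)
    (hm : F.card = 2 ^ s - 1) (u : ℕ) (hu : u ∈ V) (v : ℕ) (hv : v ∈ V) : -1 ≤ G F u v := by
  obtain ⟨hmZ, hp1⟩ := pow_facts hs hm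
  by_cases huv : u = v
  · subst huv
    rw [G_self]
    omega
  · have h1 := half hsn hF hFV hV hB (s - 2) 2 (by omega) (by omega) {u, v}
      (Finset.insert_subset hu (Finset.singleton_subset_iff.2 hv)) (Finset.card_pair huv)
    rw [show s - 2 + 1 = s - 1 by omega] at h1
    rw [G_eq, hmZ, hp1]
    have h2 : (2 : ℤ) ^ (s - 1) - 1 ≤ (b F {u, v} : ℤ) := by
      have h3 : 1 ≤ 2 ^ (s - 1) := Nat.one_le_two_pow
      have h4 : 2 ^ (s - 1) ≤ b F {u, v} + 1 := by omega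
      have h5 : ((2 ^ (s - 1) : ℕ) : ℤ) ≤ ((b F {u, v} + 1 : ℕ) : ℤ) := by exact_mod_cast h4
      push_cast at h5
      linarith
    linarith

theorem tight (hs : 2 ≤ s) (hsn : s ≤ n) (hF : ∀ A ∈ F, A.card = n)
    (hFV : ∀ A ∈ F, A ⊆ V) (hV : V.card = 2 * n) (hB : ¬ HasB s F)
    (hm : F.card = 2 ^ s - 1) :
    (∀ u ∈ V, ∀ v ∈ V, G F u v = -1 ∨ G F u v = 2 ^ s - 1) ∧
      ∀ A ∈ F, ∀ B ∈ F, A ≠ B → ∑ v ∈ V, ep A v * ep B v = 0 := by
  obtain ⟨hmZ, hp1⟩ := pow_facts hs hm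
  have hlow := G_ge hs hsn hF hFV hV hB hm
  have hnn : ∀ u ∈ V, ∀ v ∈ V, 0 ≤ (G F u v + 1) * (2 ^ s - (G F u v + 1)) := by
    intro u hu v hv
    have h1 := hlow u hu v hv
    have h2 := G_le F u v
    rw [hmZ] at h2
    exact mul_nonneg (by linarith) (by linarith)
  have hsum : ∑ u ∈ V, ∑ v ∈ V, (G F u v + 1) * (2 ^ s - (G F u v + 1)) =
      (2 ^ s - 1) * (2 * n) * (2 * n) - ∑ u ∈ V, ∑ v ∈ V, G F u v ^ 2 := by
    have h1 : ∀ u v, (G F u v + 1) * (2 ^ s - (G F u v + 1)) =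
        (2 ^ s - 2) * G F u v + (2 ^ s - 1) - G F u v ^ 2 := by
      intro u v
      ring
    simp only [h1]
    have h2 : ∀ u ∈ V, ∑ v ∈ V, ((2 ^ s - 2) * G F u v + (2 ^ s - 1) - G F u v ^ 2) =
        (2 ^ s - 1) * (2 * n) - ∑ v ∈ V, G F u v ^ 2 := by
      intro u _
      rw [Finset.sum_sub_distrib, Finset.sum_add_distrib, ← Finset.mul_sum, sum_G hF hFV hV,
        Finset.sum_const, hV]
      simp
      ring
    rw [Finset.sum_congr rfl h2, Finset.sum_sub_distrib, Finset.sum_const, hV, nsmul_eq_mul]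
    push_cast
    ring
  have hnonneg : 0 ≤ ∑ u ∈ V, ∑ v ∈ V, (G F u v + 1) * (2 ^ s - (G F u v + 1)) :=
    Finset.sum_nonneg (fun u hu => Finset.sum_nonneg (hnn u hu))
  -- lower bound for the sum of squares
  have hrow : ∀ A ∈ F, ((2 * n : ℤ)) ^ 2 ≤ ∑ B ∈ F, (∑ v ∈ V, ep A v * ep B v) ^ 2 := by
    intro A hA
    have h3 : (∑ v ∈ V, ep A v * ep A v) ^ 2 ≤ ∑ B ∈ F, (∑ v ∈ V, ep A v * ep B v) ^ 2 :=
      Finset.single_le_sum (f := fun B => (∑ v ∈ V, ep A v * ep B v) ^ 2)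
        (fun _ _ => sq_nonneg _) hA
    rwa [ep_self_sum hV] at h3
  have horth : ∀ A ∈ F, ∀ B ∈ F, A ≠ B → ∑ v ∈ V, ep A v * ep B v = 0 := by
    intro A hA B hB' hAB
    have h1 : (2 * n : ℤ) ^ 2 + (∑ v ∈ V, ep A v * ep B v) ^ 2 ≤
        ∑ B ∈ F, (∑ v ∈ V, ep A v * ep B v) ^ 2 := by
      have h2 : ∑ B' ∈ ({A, B} : Finset (Finset ℕ)), (∑ v ∈ V, ep A v * ep B' v) ^ 2 ≤
          ∑ B ∈ F, (∑ v ∈ V, ep A v * ep B v) ^ 2 :=
        Finset.sum_le_sum_of_subset_of_nonneg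
          (Finset.insert_subset hA (Finset.singleton_subset_iff.2 hB'))
          (fun _ _ _ => sq_nonneg _)
      rwa [Finset.sum_pair hAB, ep_self_sum hV] at h2
    have h2 : (F.card : ℤ) * (2 * n) ^ 2 + (∑ v ∈ V, ep A v * ep B v) ^ 2 ≤
        ∑ A ∈ F, ∑ B ∈ F, (∑ v ∈ V, ep A v * ep B v) ^ 2 := by
      rw [← Finset.add_sum_erase F _ hA]
      have h3 : ∑ A' ∈ F.erase A, ((2 * n : ℤ)) ^ 2 ≤
          ∑ A' ∈ F.erase A, ∑ B ∈ F, (∑ v ∈ V, ep A' v * ep B v) ^ 2 :=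
        Finset.sum_le_sum (fun A' hA' => hrow A' (Finset.mem_of_mem_erase hA'))
      rw [Finset.sum_const, nsmul_eq_mul, Finset.card_erase_of_mem hA] at h3
      have h4 : ((F.card - 1 : ℕ) : ℤ) = F.card - 1 := by
        rw [Nat.cast_sub (Finset.card_pos.2 ⟨A, hA⟩)]
        simp
      rw [h4] at h3
      linarith
    rw [← sum_G_sq_eq, hmZ] at h2
    have h5 : (∑ v ∈ V, ep A v * ep B v) ^ 2 ≤ 0 := by nlinarith
    exact pow_eq_zero_iff (two_ne_zero) |>.1 (le_antisymm h5 (sq_nonneg _))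
  refine ⟨?_, horth⟩
  have hge : (F.card : ℤ) * (2 * n) ^ 2 ≤ ∑ u ∈ V, ∑ v ∈ V, G F u v ^ 2 := by
    rw [sum_G_sq_eq]
    have h3 := Finset.sum_le_sum hrow
    rw [Finset.sum_const, nsmul_eq_mul] at h3
    exact h3
  have hz : ∑ u ∈ V, ∑ v ∈ V, (G F u v + 1) * (2 ^ s - (G F u v + 1)) = 0 := by
    refine le_antisymm ?_ hnonneg
    rw [hsum]
    rw [hmZ] at hge
    nlinarith
  intro u hu v hv
  have h2 := (Finset.sum_eq_zero_iff_of_nonneg
    (fun u hu => Finset.sum_nonneg (hnn u hu))).1 hz u hu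
  have h3 := (Finset.sum_eq_zero_iff_of_nonneg (hnn u hu)).1 h2 v hv
  rcases mul_eq_zero.1 h3 with h | h
  · left
    linarith
  · right
    linarith

theorem dvd_of_eq (hs : 2 ≤ s) (hsn : s ≤ n) (hF : ∀ A ∈ F, A.card = n)
    (hFV : ∀ A ∈ F, A ⊆ V) (hV : V.card = 2 * n) (hB : ¬ HasB s F)
    (hm : F.card = 2 ^ s - 1) : 2 ^ (s - 1) ∣ n := by
  obtain ⟨hmZ, hp1⟩ := pow_facts hs hm
  obtain ⟨ht, -⟩ := tight hs hsn hF hFV hV hB hm
  have hVne : V.Nonempty := Finset.card_pos.1 (by omega)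
  obtain ⟨u, hu⟩ := hVne
  have h1 : ∑ v ∈ V, (G F u v + 1) = 2 * n := by
    rw [Finset.sum_add_distrib, sum_G hF hFV hV, Finset.sum_const, hV]
    simp
  have h2 : ∀ v ∈ V, (2 : ℤ) ^ s ∣ G F u v + 1 := by
    intro v hv
    rcases ht u hu v hv with h | h
    · rw [h]
      simp
    · rw [h]
      simp
  have h3 : (2 : ℤ) ^ s ∣ 2 * n := by
    rw [← h1]
    exact Finset.dvd_sum h2
  rw [hp1] at h3
  have h4 : (2 : ℤ) ^ (s - 1) ∣ n := Int.dvd_of_mul_dvd_mul_left (by norm_num) h3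
  exact_mod_cast h4

end

/-- **Lower bound.** -/
theorem lower {n s : ℕ} (hs : 2 ≤ s) (hsn : s ≤ n) (F : Finset (Finset ℕ))
    (hF : ∀ A ∈ F, A.card = n) (hV : (F.sup id).card ≤ 2 * n) (hB : ¬ HasB s F) :
    2 ^ s - 1 ≤ F.card ∧ (F.card = 2 ^ s - 1 → 2 ^ (s - 1) ∣ n) := by
  obtain ⟨V, hFV, hVc⟩ := Infinite.exists_superset_card_eq (F.sup id) (2 * n) hV
  have hFV' : ∀ A ∈ F, A ⊆ V := fun A hA => (Finset.le_sup (f := id) hA).trans hFV
  refine ⟨?_, dvd_of_eq hs hsn hF hFV' hVc hB⟩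
  have hVne : V.Nonempty := Finset.card_pos.1 (by omega)
  obtain ⟨u, hu⟩ := hVne
  have h1 := half hsn hF hFV' hVc hB (s - 1) 1 (by omega) le_rfl {u}
    (Finset.singleton_subset_iff.2 hu) (Finset.card_singleton u)
  rw [show s - 1 + 1 = s by omega] at h1
  exact h1.trans (Finset.card_filter_le _ _)

end Pool.Agent.PB90
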