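import Pool.Agent.Lib_helper90.PB.Lower

/-!
# Property `B(s)` on at most `2n` vertices (MP_9a3d30_co): structure of the extremal families
-/

set_option autoImplicit false

namespace Pool.Agent.PB90

open Pool.Agent.PropB65

section

variable {F : Finset (Finset ℕ)} {V : Finset ℕ} {n s : ℕ}

/-- A sign vector with nonnegative correlations is the sign vector of a vertex. -/
theorem closure_lem (hn : 0 < n) (hs : 2 ≤ s) (hF : ∀ A ∈ F, A.card = n)
    (hFV : ∀ A ∈ F, A ⊆ V) (hV : V.card = 2 * n) (hm : F.card = 2 ^ s - 1)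
    (horth : ∀ A ∈ F, ∀ B ∈ F, A ≠ B → ∑ v ∈ V, ep A v * ep B v = 0)
    (p : Finset ℕ → ℤ) (hp : ∀ A ∈ F, p A = 1 ∨ p A = -1)
    (hnn : ∀ v ∈ V, 0 ≤ 1 + ∑ A ∈ F, p A * ep A v) :
    ∃ v ∈ V, ∀ A ∈ F, ep A v = p A := by
  obtain ⟨hmZ, -⟩ := pow_facts hs hm
  have hpsq : ∀ A ∈ F, p A * p A = 1 := by
    intro A hA
    rcases hp A hA with h | h <;> rw [h] <;> norm_num
  have hle1 : ∀ v, ∀ A ∈ F, p A * ep A v ≤ 1 := by
    intro v A hA
    unfold ep
    rcases hp A hA with h | h <;> rw [h] <;> split_ifs <;> norm_num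
  have hle : ∀ v, ∑ A ∈ F, p A * ep A v ≤ 2 ^ s - 1 := by
    intro v
    have := Finset.sum_le_sum (fun A hA => hle1 v A hA)
    rw [Finset.sum_const, nsmul_eq_mul, mul_one, hmZ] at this
    exact this
  have hsum1 : ∑ v ∈ V, ∑ A ∈ F, p A * ep A v = 0 := by
    rw [Finset.sum_comm]
    refine Finset.sum_eq_zero (fun A hA => ?_)
    rw [← Finset.mul_sum, sum_ep hV (hF A hA) (hFV A hA), mul_zero]
  have hsum2 : ∑ v ∈ V, (∑ A ∈ F, p A * ep A v) ^ 2 = (2 ^ s - 1) * (2 * n) := by
    have h1 : ∀ v, (∑ A ∈ F, p A * ep A v) ^ 2 =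
        ∑ A ∈ F, ∑ B ∈ F, (p A * p B) * (ep A v * ep B v) := by
      intro v
      rw [sq, Finset.sum_mul_sum]
      exact Finset.sum_congr rfl (fun A _ => Finset.sum_congr rfl (fun B _ => by ring))
    simp only [h1]
    rw [Finset.sum_comm]
    have h2 : ∀ A ∈ F, ∑ v ∈ V, ∑ B ∈ F, (p A * p B) * (ep A v * ep B v) = 2 * (n : ℤ) := by
      intro A hA
      rw [Finset.sum_comm, Finset.sum_eq_single A]
      · rw [← Finset.mul_sum, ep_self_sum hV, hpsq A hA, one_mul]
      · intro B hB hBA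
        rw [← Finset.mul_sum, horth A hA B hB (Ne.symm hBA), mul_zero]
      · intro h
        exact absurd hA h
    rw [Finset.sum_congr rfl h2, Finset.sum_const, nsmul_eq_mul, hmZ]
  have hz : ∑ v ∈ V, (1 + ∑ A ∈ F, p A * ep A v) * (2 ^ s - (1 + ∑ A ∈ F, p A * ep A v)) = 0 := by
    have h1 : ∀ v, (1 + ∑ A ∈ F, p A * ep A v) * (2 ^ s - (1 + ∑ A ∈ F, p A * ep A v)) =
        (2 ^ s - 2) * (∑ A ∈ F, p A * ep A v) + (2 ^ s - 1) - (∑ A ∈ F, p A * ep A v) ^ 2 := by
      intro v
      ring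
    simp only [h1]
    rw [Finset.sum_sub_distrib, Finset.sum_add_distrib, ← Finset.mul_sum, hsum1, hsum2,
      Finset.sum_const, hV]
    simp
    ring
  have hz' : ∀ v ∈ V, (1 + ∑ A ∈ F, p A * ep A v) * (2 ^ s - (1 + ∑ A ∈ F, p A * ep A v)) = 0 :=
    (Finset.sum_eq_zero_iff_of_nonneg (fun v hv => mul_nonneg (hnn v hv)
      (by linarith [hle v]))).1 hz
  have hex : ∃ v ∈ V, 1 + ∑ A ∈ F, p A * ep A v ≠ 0 := by
    by_contra hcon
    push Not at hcon
    have h1 : ∑ v ∈ V, (1 + ∑ A ∈ F, p A * ep A v) = 0 := Finset.sum_eq_zero hcon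
    rw [Finset.sum_add_distrib, hsum1, Finset.sum_const, hV] at h1
    simp at h1
    omega
  obtain ⟨v, hv, hne⟩ := hex
  refine ⟨v, hv, ?_⟩
  have h1 : ∑ A ∈ F, p A * ep A v = 2 ^ s - 1 := by
    rcases mul_eq_zero.1 (hz' v hv) with h | h
    · exact absurd h hne
    · linarith
  have h2 : ∑ A ∈ F, (1 - p A * ep A v) = 0 := by
    rw [Finset.sum_sub_distrib, h1, Finset.sum_const, nsmul_eq_mul, mul_one, hmZ, sub_self]
  have h3 := (Finset.sum_eq_zero_iff_of_nonneg
    (fun A hA => sub_nonneg.2 (hle1 v A hA))).1 h2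
  intro A hA
  have h4 := h3 A hA
  have h5 : p A * ep A v = 1 := by linarith
  rcases hp A hA with h | h <;> rw [h] at h5 ⊢ <;> linarith

/-- the number of edges disjoint from `T` -/
def q (F : Finset (Finset ℕ)) (T : Finset ℕ) : ℕ := (F.filter fun A => Disjoint T A).card

theorem q_bad (hB : ¬ HasB s F) (T : Finset ℕ) (hT : T.card < s) : 1 ≤ q F T := by
  unfold HasB at hB
  push Not at hB
  obtain ⟨A, hA, h⟩ := hB (T ∩ F.sup id) Finset.inter_subset_right
  have hAF : A ⊆ F.sup id := Finset.le_sup (f := id) hA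
  have e1 : A ∩ (T ∩ F.sup id) = A ∩ T := by
    ext x
    simp only [Finset.mem_inter]
    constructor
    · rintro ⟨a, c, -⟩
      exact ⟨a, c⟩
    · rintro ⟨a, c⟩
      exact ⟨a, c, hAF a⟩
  rw [e1] at h
  have : A ∈ F.filter fun A => Disjoint T A := by
    rw [Finset.mem_filter]
    refine ⟨hA, ?_⟩
    rcases Nat.eq_zero_or_pos (A ∩ T).card with h0 | h0
    · rw [Finset.card_eq_zero] at h0
      rw [disjoint_comm, Finset.disjoint_iff_inter_eq_empty, h0]
    · exfalso
      have h1 : s ≤ (A ∩ T).card := h h0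
      have h2 : (A ∩ T).card ≤ T.card := Finset.card_le_card Finset.inter_subset_right
      omega
  exact Finset.card_pos.2 ⟨A, this⟩

theorem q_avg (hF : ∀ A ∈ F, A.card = n) (hFV : ∀ A ∈ F, A ⊆ V) (hV : V.card = 2 * n)
    (T : Finset ℕ) (hTV : T ⊆ V) :
    ∑ w ∈ V \ T, q F (insert w T) = q F T * (n - T.card) := by
  unfold q
  simp only [Finset.card_filter]
  rw [Finset.sum_comm, Finset.sum_mul]
  refine Finset.sum_congr rfl (fun A hA => ?_)
  rw [← Finset.card_filter]
  by_cases h2 : Disjoint T A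
  · rw [if_pos h2, one_mul]
    have e1 : (V \ T).filter (fun w => Disjoint (insert w T) A) = (V \ A) \ T := by
      ext w
      simp only [Finset.mem_filter, Finset.mem_sdiff, Finset.disjoint_insert_left]
      tauto
    have h3 : T ⊆ V \ A := by
      intro x hx
      rw [Finset.mem_sdiff]
      exact ⟨hTV hx, fun h => Finset.disjoint_left.1 h2 hx h⟩
    rw [e1, Finset.card_sdiff_of_subset h3, Finset.card_sdiff_of_subset (hFV A hA), hF A hA, hV]
    omega
  · rw [if_neg h2, zero_mul, Finset.card_eq_zero]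
    rw [Finset.filter_eq_empty_iff]
    intro w _
    rw [Finset.disjoint_insert_left]
    tauto

theorem q_half (hsn : s ≤ n) (hF : ∀ A ∈ F, A.card = n) (hFV : ∀ A ∈ F, A ⊆ V)
    (hV : V.card = 2 * n) (hB : ¬ HasB s F) : ∀ k j : ℕ, j + k + 1 = s →
      ∀ T : Finset ℕ, T ⊆ V → T.card = j → 2 ^ (k + 1) - 1 ≤ q F T := by
  intro k
  induction k with
  | zero =>
    intro j hj T _ hT
    simpa using q_bad hB T (by omega)
  | succ k ih =>
    intro j hj T hTV hT
    have h2 := q_avg hF hFV hV T hTV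
    have h3 : (V \ T).card * (2 ^ (k + 1) - 1) ≤ ∑ w ∈ V \ T, q F (insert w T) := by
      rw [← smul_eq_mul]
      refine Finset.card_nsmul_le_sum _ _ _ (fun w hw => ?_)
      rw [Finset.mem_sdiff] at hw
      refine ih (j + 1) (by omega) _ (Finset.insert_subset hw.1 hTV) ?_
      rw [Finset.card_insert_of_notMem hw.2, hT]
    rw [h2, Finset.card_sdiff_of_subset hTV, hV, hT] at h3
    obtain ⟨M, hM⟩ : ∃ M, 2 ^ (k + 1) = M + 1 :=
      ⟨2 ^ (k + 1) - 1, by have := Nat.one_le_two_pow (n := k + 1); omega⟩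
    have e1 : 2 ^ (k + 1 + 1) - 1 = 2 * M + 1 := by
      rw [pow_succ, hM]
      omega
    rw [hM, Nat.add_sub_cancel] at h3
    rw [e1]
    by_contra hlt
    have hb : q F T ≤ 2 * M := by omega
    have h7 : 2 ^ 1 ≤ 2 ^ (k + 1) := Nat.pow_le_pow_right (by norm_num) (by omega)
    have hM1 : 1 ≤ M := by omega
    rcases Nat.eq_zero_or_pos j with hj0 | hj0
    · -- no vertex chosen: the average is `q / 2`; here the family would have less than `2^s - 1`
      subst hj0
      have hT0 : T = ∅ := Finset.card_eq_zero.1 hT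
      have hq : q F T = F.card := by
        unfold q
        rw [hT0, Finset.filter_true_of_mem]
        intro A _
        exact Finset.disjoint_empty_left A
      have hVne : V.Nonempty := Finset.card_pos.1 (by omega)
      obtain ⟨u, hu⟩ := hVne
      have h8 := half hsn hF hFV hV hB (s - 1) 1 (by omega) le_rfl {u}
        (Finset.singleton_subset_iff.2 hu) (Finset.card_singleton u)
      have h9 : b F {u} ≤ F.card := Finset.card_filter_le _ _
      rw [show s - 1 + 1 = k + 1 + 1 by omega, e1] at h8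
      omega
    · have h4 : q F T * (n - j) ≤ 2 * M * (n - j) := Nat.mul_le_mul_right _ hb
      have h5 : (2 * n - j) * M ≤ 2 * M * (n - j) := h3.trans h4
      have h6 : (2 * n - j) = 2 * (n - j) + j := by omega
      rw [h6] at h5
      nlinarith [Nat.mul_pos hj0 (show 0 < M by omega)]

theorem sum_ep_q (F : Finset (Finset ℕ)) (v : ℕ) :
    ∑ A ∈ F, ep A v = (F.card : ℤ) - 2 * q F {v} := by
  unfold q ep
  rw [Finset.card_filter]
  push_cast
  rw [Finset.mul_sum, Finset.card_eq_sum_ones, Nat.cast_sum, ← Finset.sum_sub_distrib]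
  refine Finset.sum_congr rfl (fun A _ => ?_)
  by_cases h1 : v ∈ A <;> simp [h1, Finset.disjoint_singleton_left]

/-- There is a vertex in no edge. -/
theorem exists_dummy (hs : 2 ≤ s) (hsn : s ≤ n) (hF : ∀ A ∈ F, A.card = n)
    (hFV : ∀ A ∈ F, A ⊆ V) (hV : V.card = 2 * n) (hB : ¬ HasB s F)
    (hm : F.card = 2 ^ s - 1) : ∃ z ∈ V, ∀ A ∈ F, z ∉ A := by
  obtain ⟨hmZ, hp1⟩ := pow_facts hs hm
  obtain ⟨-, horth⟩ := tight hs hsn hF hFV hV hB hm
  obtain ⟨z, hz, h⟩ := closure_lem (by omega) hs hF hFV hV hm horth (fun _ => -1)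
    (fun _ _ => Or.inr rfl) (by
      intro v hv
      have h1 := q_half hsn hF hFV hV hB (s - 2) 1 (by omega) {v}
        (Finset.singleton_subset_iff.2 hv) (Finset.card_singleton v)
      rw [show s - 2 + 1 = s - 1 by omega] at h1
      rw [← Finset.mul_sum, sum_ep_q, hmZ, hp1]
      have h3 : 1 ≤ 2 ^ (s - 1) := Nat.one_le_two_pow
      have h4 : 2 ^ (s - 1) ≤ q F {v} + 1 := by omega
      have h5 : ((2 ^ (s - 1) : ℕ) : ℤ) ≤ ((q F {v} + 1 : ℕ) : ℤ) := by exact_mod_cast h4
      push_cast at h5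
      linarith)
  refine ⟨z, hz, fun A hA hzA => ?_⟩
  have h1 := h A hA
  unfold ep at h1
  rw [if_pos hzA] at h1
  norm_num at h1

theorem ep_eq_of (hm : (F.card : ℤ) = 2 ^ s - 1) {a c : ℕ} (h : G F a c = 2 ^ s - 1) :
    ∀ A ∈ F, ep A a = ep A c := by
  have h1 : ∑ A ∈ F, (1 - ep A a * ep A c) = 0 := by
    unfold G at h
    rw [Finset.sum_sub_distrib, h, Finset.sum_const, nsmul_eq_mul, mul_one, hm, sub_self]
  have hnn : ∀ A ∈ F, 0 ≤ 1 - ep A a * ep A c := by
    intro A _
    unfold ep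
    split_ifs <;> norm_num
  have h3 := (Finset.sum_eq_zero_iff_of_nonneg hnn).1 h1
  intro A hA
  have h4 := h3 A hA
  unfold ep at h4 ⊢
  split_ifs at h4 ⊢ <;> first | rfl | (norm_num at h4)

/-- the product of three columns and a fourth one -/
theorem quad (hs : 2 ≤ s) (hsn : s ≤ n) (hF : ∀ A ∈ F, A.card = n)
    (hFV : ∀ A ∈ F, A ⊆ V) (hV : V.card = 2 * n) (hB : ¬ HasB s F)
    (hm : F.card = 2 ^ s - 1) (a : ℕ) (ha : a ∈ V) (c : ℕ) (hc : c ∈ V) (d : ℕ) (hd : d ∈ V)
    (e : ℕ) (he : e ∈ V) :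
    0 ≤ 1 + ∑ A ∈ F, ep A a * ep A c * ep A d * ep A e := by
  obtain ⟨hmZ, hp1⟩ := pow_facts hs hm
  obtain ⟨ht, -⟩ := tight hs hsn hF hFV hV hB hm
  have hge := G_ge hs hsn hF hFV hV hB hm
  -- if two of the vertices are equivalent
  have key : ∀ x ∈ V, ∀ y ∈ V, ∀ z ∈ V, ∀ w ∈ V, G F x y = 2 ^ s - 1 →
      0 ≤ 1 + ∑ A ∈ F, ep A x * ep A y * ep A z * ep A w := by
    intro x _ y _ z hz w hw h
    have h1 := ep_eq_of hmZ h
    have h2 : ∑ A ∈ F, ep A x * ep A y * ep A z * ep A w = G F z w := by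
      unfold G
      refine Finset.sum_congr rfl (fun A hA => ?_)
      rw [h1 A hA, ep_sq, one_mul]
    rw [h2]
    linarith [hge z hz w hw]
  have perm : ∀ x y z w : ℕ, (∀ A : Finset ℕ, ep A a * ep A c * ep A d * ep A e =
      ep A x * ep A y * ep A z * ep A w) →
      0 ≤ 1 + ∑ A ∈ F, ep A x * ep A y * ep A z * ep A w →
      0 ≤ 1 + ∑ A ∈ F, ep A a * ep A c * ep A d * ep A e := by
    intro x y z w h1 h2
    simpa only [h1] using h2
  rcases ht a ha c hc with h1 | h1
  swap
  · exact key a ha c hc d hd e he h1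
  rcases ht a ha d hd with h2 | h2
  swap
  · exact perm a d c e (fun A => by ring) (key a ha d hd c hc e he h2)
  rcases ht a ha e he with h3 | h3
  swap
  · exact perm a e c d (fun A => by ring) (key a ha e he c hc d hd h3)
  rcases ht c hc d hd with h4 | h4
  swap
  · exact perm c d a e (fun A => by ring) (key c hc d hd a ha e he h4)
  rcases ht c hc e he with h5 | h5
  swap
  · exact perm c e a d (fun A => by ring) (key c hc e he a ha d hd h5)
  rcases ht d hd e he with h6 | h6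
  swap
  · exact perm d e a c (fun A => by ring) (key d hd e he a ha c hc h6)
  -- all different
  have hpos : (0 : ℤ) < 2 ^ s := by positivity
  have hself : ∀ x, G F x x ≠ -1 := by
    intro x h
    rw [G_self, hmZ] at h
    linarith
  have n1 : a ≠ c := fun h => hself a (by rw [← h] at h1; exact h1)
  have n2 : a ≠ d := fun h => hself a (by rw [← h] at h2; exact h2)
  have n3 : a ≠ e := fun h => hself a (by rw [← h] at h3; exact h3)
  have n4 : c ≠ d := fun h => hself c (by rw [← h] at h4; exact h4)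
  have n5 : c ≠ e := fun h => hself c (by rw [← h] at h5; exact h5)
  have n6 : d ≠ e := fun h => hself d (by rw [← h] at h6; exact h6)
  have hcard : ({a, c, d, e} : Finset ℕ).card = 4 := by
    rw [Finset.card_insert_of_notMem, Finset.card_insert_of_notMem, Finset.card_pair n6]
    · simp [n4, n5]
    · simp [n1, n2, n3]
  have hsub : ({a, c, d, e} : Finset ℕ) ⊆ V := by
    intro x hx
    simp only [Finset.mem_insert, Finset.mem_singleton] at hx
    rcases hx with h | h | h | h <;> rw [h] <;> assumption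
  have hb : (2 : ℤ) ^ s ≤ 8 * ((b F {a, c, d, e} : ℤ) + 1) := by
    rcases Nat.lt_or_ge s 4 with hs4 | hs4
    · have : s = 2 ∨ s = 3 := by omega
      have h7 : (0 : ℤ) ≤ (b F {a, c, d, e} : ℤ) := Nat.cast_nonneg _
      rcases this with h | h <;> rw [h] <;> norm_num <;> linarith
    · have h7 := half hsn hF hFV hV hB (s - 4) 4 (by omega) (by omega) _ hsub hcard
      have h8 : 2 ^ (s - 4 + 1) ≤ b F {a, c, d, e} + 1 := by
        have := Nat.one_le_two_pow (n := s - 4 + 1)
        omega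
      have h9 : ((2 ^ (s - 4 + 1) : ℕ) : ℤ) ≤ ((b F {a, c, d, e} + 1 : ℕ) : ℤ) := by
        exact_mod_cast h8
      push_cast at h9
      have h10 : (2 : ℤ) ^ s = 8 * 2 ^ (s - 4 + 1) := by
        rw [show (8 : ℤ) = 2 ^ 3 by norm_num, ← pow_add]
        congr 1
        omega
      rw [h10]
      linarith
  have hid : ∑ A ∈ F, (1 + ep A a * ep A c) * (1 + ep A a * ep A d) * (1 + ep A a * ep A e) =
      8 * (b F {a, c, d, e} : ℤ) := by
    unfold b
    rw [Finset.card_filter]
    push_cast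
    rw [Finset.mul_sum]
    refine Finset.sum_congr rfl (fun A _ => ?_)
    unfold ep
    simp only [Finset.insert_subset_iff, Finset.singleton_subset_iff,
      Finset.disjoint_insert_left, Finset.disjoint_singleton_left]
    by_cases x1 : a ∈ A <;> by_cases x2 : c ∈ A <;> by_cases x3 : d ∈ A <;>
      by_cases x4 : e ∈ A <;> simp [x1, x2, x3, x4]
  have hexp : ∑ A ∈ F, (1 + ep A a * ep A c) * (1 + ep A a * ep A d) * (1 + ep A a * ep A e) =
      (F.card : ℤ) + G F a c + G F a d + G F a e + G F c d + G F c e + G F d e +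
        ∑ A ∈ F, ep A a * ep A c * ep A d * ep A e := by
    unfold G
    rw [Finset.card_eq_sum_ones, Nat.cast_sum]
    simp only [← Finset.sum_add_distrib]
    refine Finset.sum_congr rfl (fun A _ => ?_)
    have h7 := ep_sq A a
    push_cast
    linear_combination (ep A c * ep A d + ep A c * ep A e + ep A d * ep A e +
      ep A a * ep A c * ep A d * ep A e) * h7
  rw [hexp, h1, h2, h3, h4, h5, h6, hmZ] at hid
  linarith

/-- The columns are closed under products of three. -/
theorem triple (hs : 2 ≤ s) (hsn : s ≤ n) (hF : ∀ A ∈ F, A.card = n)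
    (hFV : ∀ A ∈ F, A ⊆ V) (hV : V.card = 2 * n) (hB : ¬ HasB s F)
    (hm : F.card = 2 ^ s - 1) (a : ℕ) (ha : a ∈ V) (c : ℕ) (hc : c ∈ V) (d : ℕ) (hd : d ∈ V) :
    ∃ v ∈ V, ∀ A ∈ F, ep A v = ep A a * ep A c * ep A d := by
  obtain ⟨-, horth⟩ := tight hs hsn hF hFV hV hB hm
  refine closure_lem (by omega) hs hF hFV hV hm horth _ ?_
    (fun v hv => quad hs hsn hF hFV hV hB hm a ha c hc d hd v hv)
  intro A _
  unfold ep
  split_ifs <;> norm_num

end

end Pool.Agent.PB90
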